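import Pool.Agent.Lib.MP_021685_agTAF.F3

/-! The numbers with `TAF.Small` are closed under inverses, roots and automorphisms of `ℂ`. -/

set_option autoImplicit false

namespace TAW

open Polynomial TAF

private theorem W1_rev (f : ℚ[X]) {x : ℂ} (hx : x ≠ 0) :
    aeval x⁻¹ f.reverse = 0 ↔ aeval x f = 0 := by
  let _ : Invertible x := invertibleOfNonzero hx
  have h1 := eval₂_reverse_eq_zero_iff (algebraMap ℚ ℂ) x f
  rwa [invOf_eq_inv] at h1

private theorem W1_inv {q : ℕ} {R : Set ℂ} {g : ℕ} {ρ : ℂ} (h0 : ρ ≠ 0) (h : Foreign q R g ρ) : Foreign q R g ρ⁻¹ := by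
  obtain ⟨f, hf, hr, hcase⟩ := h
  refine ⟨f.reverse, fun h1 => hf (reverse_eq_zero.1 h1), (W1_rev f h0).2 hr, ?_⟩
  rcases hcase with h1 | h1 | h1
  · exact Or.inl (lt_of_le_of_lt (reverse_natDegree_le f) h1)
  · refine Or.inr (Or.inl fun w hw => h1 w fun j => ?_)
    have h2 : Submonoid.closure {z : ℂ | z ≠ 0 ∧ (aeval z f.reverse = 0 ∨ aeval z⁻¹ f.reverse = 0)} ≤
        Submonoid.closure {z : ℂ | z ≠ 0 ∧ (aeval z f = 0 ∨ aeval z⁻¹ f = 0)} := by
      refine Submonoid.closure_mono ?_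
      rintro z ⟨hz, h3 | h3⟩
      · refine ⟨hz, Or.inr ?_⟩
        rw [← W1_rev f (inv_ne_zero hz), inv_inv]
        exact h3
      · exact ⟨hz, Or.inl ((W1_rev f hz).1 h3)⟩
    exact h2 (hw j)
  · refine Or.inr (Or.inr fun z hz hmem => h1 z hz ?_)
    have h2 : IntermediateField.adjoin ℚ (f.reverse.rootSet ℂ) ≤
        IntermediateField.adjoin ℚ (f.rootSet ℂ) := by
      refine IntermediateField.adjoin_le_iff.2 fun w hw => ?_
      have hw1 := (mem_rootSet.1 hw).2
      have hw0 : w ≠ 0 := by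
        intro h3
        rw [h3, aeval_def, eval₂_at_zero, coeff_zero_reverse] at hw1
        exact hf (leadingCoeff_eq_zero.1 ((map_eq_zero _).1 hw1))
      have h3 : aeval w⁻¹ f = 0 := by
        rw [← W1_rev f (inv_ne_zero hw0), inv_inv]
        exact hw1
      have h4 : w⁻¹ ∈ IntermediateField.adjoin ℚ (f.rootSet ℂ) :=
        IntermediateField.subset_adjoin ℚ _ (mem_rootSet.2 ⟨hf, h3⟩)
      have h5 := inv_mem h4
      rw [inv_inv] at h5
      exact h5
    exact h2 hmem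

private theorem W1_aut {q : ℕ} {R : Set ℂ} {g : ℕ} {ρ : ℂ} (σ : RingAut ℂ) (h : Foreign q R g ρ) :
    Foreign q R g (σ ρ) := by
  obtain ⟨f, hf, hr, hcase⟩ := h
  refine ⟨f, hf, ?_, hcase⟩
  let ψ : ℂ →ₐ[ℚ] ℂ := ((σ : ℂ ≃+* ℂ) : ℂ →+* ℂ).toRatAlgHom
  have h1 : aeval (ψ ρ) f = ψ (aeval ρ f) := aeval_algHom_apply ψ ρ f
  rw [hr, map_zero] at h1
  exact h1

/-- A set of numbers closed under products, inverses, roots and automorphisms of `ℂ`, which contains `1`, `-1` and `Q`. -/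
structure Stable (Q : ℕ) (S : ℂ → Prop) : Prop extends Closed S where
  nat : S (Q : ℂ)
  inv : ∀ y : ℂ, y ≠ 0 → S y → S y⁻¹
  root : ∀ (y : ℂ) (n : ℕ), 0 < n → S (y ^ n) → S y
  aut : ∀ (y : ℂ) (σ : RingAut ℂ), S y → S (σ y)

theorem stable_small {Q : ℕ} {R : Set ℂ} {g : ℕ} (hg : 0 < g) : Stable Q (Small Q R g) := by
  refine ⟨closed_small Q R g, ?_, ?_, ?_, ?_⟩
  · refine ⟨1, one_pos, ?_⟩
    rw [pow_one]
    refine Submonoid.subset_closure ⟨X - C (Q : ℚ), X_sub_C_ne_zero _, ?_, Or.inl ?_⟩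
    · rw [map_sub, aeval_X, aeval_C, eq_ratCast, Rat.cast_natCast, sub_self]
    · rw [natDegree_X_sub_C]
      omega
  · rintro y hy ⟨N, hN, h⟩
    refine ⟨N, hN, ?_⟩
    rw [inv_pow]
    have key : ∀ w : ℂ, w ∈ Submonoid.closure {ρ : ℂ | Foreign Q R g ρ} → w ≠ 0 →
        w⁻¹ ∈ Submonoid.closure {ρ : ℂ | Foreign Q R g ρ} := by
      intro w hw
      induction hw using Submonoid.closure_induction with
      | mem x hx => exact fun hx0 => Submonoid.subset_closure (W1_inv hx0 hx)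
      | one =>
        intro _
        rw [inv_one]
        exact one_mem _
      | mul x y _ _ hx hy =>
        intro hxy
        rw [mul_inv]
        exact mul_mem (hx (left_ne_zero_of_mul hxy)) (hy (right_ne_zero_of_mul hxy))
    exact key _ h (pow_ne_zero _ hy)
  · rintro y n hn ⟨N, hN, h⟩
    refine ⟨n * N, Nat.mul_pos hn hN, ?_⟩
    rw [pow_mul]
    exact h
  · rintro y σ ⟨N, hN, h⟩
    refine ⟨N, hN, ?_⟩
    rw [← map_pow]
    have key : ∀ w : ℂ, w ∈ Submonoid.closure {ρ : ℂ | Foreign Q R g ρ} →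
        σ w ∈ Submonoid.closure {ρ : ℂ | Foreign Q R g ρ} := by
      intro w hw
      induction hw using Submonoid.closure_induction with
      | mem x hx => exact Submonoid.subset_closure (W1_aut σ hx)
      | one =>
        rw [map_one]
        exact one_mem _
      | mul x y _ _ hx hy =>
        rw [map_mul]
        exact mul_mem hx hy
    exact key _ h

theorem Stable.imp {Q : ℕ} {S : ℂ → Prop} {p : Prop} (h : p → Stable Q S) : Stable Q fun y => p → S y :=
  ⟨⟨fun hp => (h hp).one, fun hp => (h hp).neg, fun y y' h1 h2 hp => (h hp).mul y y' (h1 hp) (h2 hp)⟩,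
    fun hp => (h hp).nat, fun y hy h1 hp => (h hp).inv y hy (h1 hp), fun y n hn h1 hp => (h hp).root y n hn (h1 hp),
    fun y σ h1 hp => (h hp).aut y σ (h1 hp)⟩

end TAW
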