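import Pool.Agent.Lib.MP_021685_agTWF.W7
import Pool.Agent.Lib.MP_021685_agTAR.R1
import Pool.Agent.Lib.MP_021685_agTAR.R2

/-! Independent families of Weil numbers have only products of pairings, over all varieties of small angle rank: every degree
`2 g`, imaginary quadratic fields included. -/

set_option autoImplicit false

namespace TAW

open Polynomial Module Finset Pool.Agent.Lib.MP_802513_ag Pool.Agent.Lib.MP_802513_ag.SD TK TI TWF

/-- `e x u` is a root of unity, if `u` is a root of a polynomial of angle rank zero. -/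
private theorem W9_rank {F : Type} [Field F] [Algebra ℚ F] [FiniteDimensional ℚ F] {q g : ℕ} {I : Type} (hq : 0 < q)
    (S : SP q g F I) (φ : F →+* ℂ) (u : F) (hu : u ≠ 0) (f : ℚ[X]) (hfu : aeval u f = 0) (h : TAR.RankLT q 1 f) (x : I) :
    ∃ N : ℕ, 0 < N ∧ S.e x u ^ N = 1 := by
  have he0 : S.e x u ≠ 0 := S.e_ne x u hu
  obtain ⟨m, b, hm, hrel⟩ := h (fun _ => φ (S.e x u)) fun _ => TAR.mem_group φ f u hu hfu _ _
  rw [Fin.prod_univ_one] at hrel
  have hm0 : m 0 ≠ 0 := by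
    intro h0
    apply hm
    funext j
    rw [Subsingleton.elim j 0, h0]
    rfl
  have h1 : S.e x u ^ m 0 = (q : F) ^ b := by
    apply φ.injective
    rw [map_zpow₀, map_zpow₀, map_natCast]
    exact hrel
  have h2 : (S.e x u)⁻¹ ^ m 0 = (q : F) ^ b := by
    have h3 := congrArg (S.s x) h1
    rw [map_zpow₀, map_zpow₀, map_natCast, TAR.s_e hq S x u] at h3
    exact h3
  have h4 : S.e x u ^ (2 * m 0) = 1 := by
    rw [inv_zpow] at h2
    rw [two_mul, zpow_add₀ he0]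
    nth_rewrite 1 [h1]
    rw [← h2]
    exact inv_mul_cancel₀ (zpow_ne_zero _ he0)
  refine ⟨2 * (m 0).natAbs, by have := Int.natAbs_pos.2 hm0; omega, ?_⟩
  rcases Int.natAbs_eq (m 0) with h6 | h6
  · rw [h6] at h4
    have h7 : (2 * ((m 0).natAbs : ℤ)) = ((2 * (m 0).natAbs : ℕ) : ℤ) := by push_cast; ring
    rw [h7, zpow_natCast] at h4
    exact h4
  · rw [h6] at h4
    have h7 : (2 * -((m 0).natAbs : ℤ)) = -((2 * (m 0).natAbs : ℕ) : ℤ) := by push_cast; ring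
    rw [h7, zpow_neg, zpow_natCast, inv_eq_one] at h4
    exact h4

variable {r : ℕ} {E : Fin r → Type} [∀ t, Field (E t)] [∀ t, NumberField (E t)]

theorem full_of_fam [∀ t, NumberField.IsCMField (E t)] {g Q : ℕ} (hQ : 0 < Q) (hg : 0 < g) (hF : HI.HasFlips E)
    (hdim : ∀ i, finrank ℚ (E i) = 2 * g) {J : Fin r → Type} [∀ i, Fintype (J i)] {a : ∀ i, J i → E i}
    (hW : ∀ i k (φ : E i →+* ℂ), φ (a i k) * starRingEnd ℂ (φ (a i k)) = (Q : ℂ)) (hI : ∀ i, IsIndep Q (a i))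
    (P : ℤ[X]) (hP : ∀ z : ℂ, aeval z P = 0 ↔ ∃ (i : Fin r) (k : J i) (φ : E i →+* ℂ), φ (a i k) = z) :
    TAR.FullOver Q P g := by
  classical
  have hQC : (Q : ℂ) ≠ 0 := Nat.cast_ne_zero.2 hQ.ne'
  have hcv : ∀ j : Idx E J, j.val a * j.conj.val a = (Q : ℂ) := fun j => hW j.1 j.2.1 j.2.2
  have hv0 : ∀ j : Idx E J, j.val a ≠ 0 := fun j h0 => by
    have h1 := hcv j
    rw [h0, zero_mul] at h1
    exact hQC h1.symm
  have hconj : ∀ j : Idx E J, j.conj.val a = (Q : ℂ) / j.val a := fun j => by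
    rw [eq_div_iff (hv0 j), mul_comm]
    exact hcv j
  have hv2 : ∀ j : Idx E J, j.val a ^ 2 ≠ (Q : ℂ) := fun j h => by
    apply conj_ne hQ hW hI j
    rw [hconj, div_eq_iff (hv0 j), ← h, pow_two]
  let R : Finset ℂ := (univ : Finset (Idx E J)).image fun j => j.val a
  have hR : ∀ z : ℂ, z ∈ R ↔ ∃ j : Idx E J, j.val a = z := by
    intro z
    simp only [R, mem_image, mem_univ, true_and]
  have hPv : ∀ j : Idx E J, aeval (j.val a) P = 0 := fun j => (hP _).2 ⟨j.1, j.2.1, j.2.2, rfl⟩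
  apply TAR.full_of_matchOver Q hQ
  intro k d b z y hd hz hy hrel
  have hidx : ∀ t, ∃ j : Idx E J, j.val a = z t := fun t => by
    obtain ⟨i, k, φ, h⟩ := (hP _).1 (hz t)
    exact ⟨⟨i, k, φ⟩, h⟩
  choose idx hidx using hidx
  have hy0 : y ≠ 0 := by
    rintro rfl
    rw [zero_pow two_ne_zero, mul_zero] at hrel
    exact pow_ne_zero _ hQC hrel.symm
  refine matching z (Q : ℂ) (fun t => by rw [← hidx]; exact hv0 _) (fun t => by rw [← hidx]; exact hv2 _) fun t0 => ?_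
  obtain ⟨N, hN, hmem⟩ := hy
  obtain ⟨L, hL, hLp⟩ := Submonoid.exists_list_of_mem_closure hmem
  obtain ⟨K, hfd, hnor, hK⟩ := exists_field (L.toFinset ∪ R) (by
    intro ρ hρ
    rcases Finset.mem_union.1 hρ with hρ | hρ
    · obtain ⟨f, hf0, hf, -⟩ := hL ρ (List.mem_toFinset.1 hρ)
      exact ⟨f, hf0, hf⟩
    · obtain ⟨j, rfl⟩ := (hR _).1 hρ
      have h1 : IsAlgebraic ℚ (a j.1 j.2.1) := Algebra.IsAlgebraic.isAlgebraic _
      exact h1.algHom (j.2.2.toRatAlgHom))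
  have hKv : ∀ j : Idx E J, j.val a ∈ K := fun j => hK _ (Finset.mem_union_right _ ((hR _).2 ⟨j, rfl⟩))
  obtain ⟨I, hI', S, hS, hcore⟩ := core hQ hF hdim hW hI K fun i k φ => hKv ⟨i, k, φ⟩
  have hSP : ∀ v : I, aeval ((S.z v : K) : ℂ) P = 0 := fun v => by
    obtain ⟨i, k, φ, h⟩ := hS v
    rw [h]
    exact (hP _).2 ⟨i, k, φ, rfl⟩
  -- the values are different
  have hinj : ∀ j j' : Idx E J, j.val a = j'.val a → j = j' := by
    intro j j' hjj
    by_contra hne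
    have hne0 : (⟨j.val a, hKv j⟩ : K) ≠ 0 := fun h0 => hv0 j (congrArg (fun w : K => (w : ℂ)) h0)
    have h1 := hcore (Fin 2) ![j, j'] (fun _ => ⟨j.val a, hKv j⟩) ![1, -1] (fun t => by
      fin_cases t
      · rfl
      · exact hjj) (fun x => by
      rw [Fin.prod_univ_two]
      show (S.e x ⟨j.val a, hKv j⟩ ^ 2) ^ (1 : ℤ) * (S.e x ⟨j.val a, hKv j⟩ ^ 2) ^ (-1 : ℤ) = 1
      rw [zpow_one, zpow_neg_one]
      exact mul_inv_cancel₀ (pow_ne_zero 2 (S.e_ne x _ hne0))) j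
    rw [sum_filter, sum_filter, Fin.sum_univ_two, Fin.sum_univ_two] at h1
    have h2 : ¬ j' = j := fun h => hne h.symm
    have h3 : ¬ j = j.conj := fun h => conj_ne hQ hW hI j (congrArg (Idx.val a) h.symm)
    simp only [Matrix.cons_val_zero, Matrix.cons_val_one, if_true, if_neg h2, if_neg h3, zero_add, add_zero] at h1
    split_ifs at h1 <;> omega
  let w : Fin k → K := fun t => ⟨z t, by rw [← hidx]; exact hKv _⟩
  have hw : ∀ t, ((w t : K) : ℂ) = (idx t).val a := fun t => (hidx t).symm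
  have hone : ∀ (u : K) (f : ℚ[X]), u ≠ 0 → f ≠ 0 → aeval u f = 0 → (f.natDegree < 2 * g ∨ TAR.RankLT Q g f ∨
      ∀ z : ℂ, aeval z P = 0 → z ∉ IntermediateField.adjoin ℚ (f.rootSet ℂ)) → ∃ M : ℕ, 0 < M ∧ ∀ x, S.e x u ^ M = 1 := by
    intro u f hu0 hf0 hfK hfd'
    have h2 : (∀ x, S.e x u ^ 2 = 1) → ∃ M : ℕ, 0 < M ∧ ∀ x, S.e x u ^ M = 1 := fun h => ⟨2, two_pos, h⟩
    rcases hfd' with h4 | h4 | h4
    · exact h2 (S.foreign (algebraMap K ℂ) hQ u hu0 f hf0 hfK (Or.inl h4))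
    · rcases (show g = 1 ∨ 2 ≤ g by omega) with rfl | hg2
      · have h5 := fun x => W9_rank hQ S (algebraMap K ℂ) u hu0 f hfK h4 x
        choose M hM hM1 using h5
        refine ⟨∏ x, M x, Finset.prod_pos fun x _ => hM x, fun x => ?_⟩
        obtain ⟨c, hc⟩ := Finset.dvd_prod_of_mem M (Finset.mem_univ x)
        rw [hc, pow_mul, hM1, one_pow]
      · exact h2 (TAR.rank_small hQ hg2 S (algebraMap K ℂ) u hu0 f hfK h4)
    · exact h2 (S.foreign (algebraMap K ℂ) hQ u hu0 f hf0 hfK (Or.inr fun v => h4 _ (hSP v)))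
  have hlist : ∀ L : List ℂ, (∀ ρ ∈ L, ρ ∈ K ∧ TAR.Foreign Q P g ρ) →
      ∃ c : K, (c ≠ 0 → ∃ M : ℕ, 0 < M ∧ ∀ x, S.e x c ^ M = 1) ∧ (c : ℂ) = L.prod := by
    intro L
    induction L with
    | nil => exact fun _ => ⟨1, fun _ => ⟨1, one_pos, fun x => by rw [S.e_one x, one_pow]⟩, by simp⟩
    | cons ρ L ih =>
      intro hρ
      obtain ⟨c, hc, hc'⟩ := ih fun σ hσ => hρ σ (List.mem_cons_of_mem _ hσ)
      obtain ⟨h3, f, hf0, hf, hfd'⟩ := hρ ρ List.mem_cons_self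
      refine ⟨⟨ρ, h3⟩ * c, fun hu0 => ?_, ?_⟩
      · have hfK : aeval (⟨ρ, h3⟩ : K) f = 0 := by
          apply (algebraMap K ℂ).injective
          rw [map_zero, ← aeval_algebraMap_apply]
          exact hf
        obtain ⟨M, hM, hM1⟩ := hone ⟨ρ, h3⟩ f (left_ne_zero_of_mul hu0) hf0 hfK hfd'
        obtain ⟨M', hM', hM1'⟩ := hc (right_ne_zero_of_mul hu0)
        refine ⟨M * M', Nat.mul_pos hM hM', fun x => ?_⟩
        rw [S.e_mul x, mul_pow, pow_mul, hM1, one_pow, mul_comm M M', pow_mul, hM1', one_pow, one_mul]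
      · rw [List.prod_cons, ← hc']
        rfl
  obtain ⟨c, hc, hc'⟩ := hlist L fun ρ hρ => ⟨hK ρ (Finset.mem_union_left _ (List.mem_toFinset.2 hρ)), hL ρ hρ⟩
  rw [hLp] at hc'
  have hc0 : c ≠ 0 := by
    intro h3
    rw [h3] at hc'
    exact pow_ne_zero N hy0 hc'.symm
  obtain ⟨M, hM0, hM1⟩ := hc hc0
  have hrel' : (∏ t, w t) ^ (2 * d * N) * c ^ 2 = (Q : K) ^ (d * (k + b) * N) := by
    apply (algebraMap K ℂ).injective
    have h3 : algebraMap K ℂ (∏ t, w t) = ∏ t, z t := by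
      rw [map_prod]
      rfl
    have h4 : algebraMap K ℂ c = y ^ N := hc'
    rw [map_mul, map_pow, map_pow, map_pow, h3, h4, map_natCast]
    rw [pow_mul (∏ t, z t) (2 * d) N, pow_mul (Q : ℂ) (d * (k + b)) N, ← hrel, mul_pow]
    congr 1
    rw [← pow_mul, ← pow_mul, mul_comm]
  have hM : 0 < 2 * d * N * M := by positivity
  have hrelE : ∀ x, ∏ t, (S.e x (w t) ^ 2) ^ ((2 * d * N * M : ℕ) : ℤ) = 1 := by
    intro x
    let Eh : K →* K :=
      { toFun := fun u => S.e x u ^ 2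
        map_one' := by rw [S.e_one x, one_pow]
        map_mul' := by intro u v; rw [S.e_mul x, mul_pow] }
    have hE : ∀ u, Eh u = S.e x u ^ 2 := fun u => rfl
    have hEq : Eh (Q : K) = 1 := by rw [hE, S.e_q hQ x, one_pow]
    have hE1 : Eh (c ^ 2) ^ M = 1 := by
      have h1 : ((S.e x c ^ 2) ^ 2) ^ M = (S.e x c ^ M) ^ 4 := by ring
      rw [map_pow, hE, h1, hM1, one_pow]
    have h : Eh ((∏ t, w t) ^ (2 * d * N) * c ^ 2) ^ M = Eh ((Q : K) ^ (d * (k + b) * N)) ^ M := by rw [hrel']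
    rw [map_mul, mul_pow, hE1, mul_one, map_pow, map_prod, map_pow, hEq, one_pow, one_pow, ← pow_mul, ← prod_pow] at h
    rw [← h]
    exact prod_congr rfl fun t _ => by rw [zpow_natCast, hE]
  have hfin := hcore (Fin k) idx w (fun _ => ((2 * d * N * M : ℕ) : ℤ)) hw hrelE (idx t0)
  rw [sum_const, sum_const, nsmul_eq_mul, nsmul_eq_mul] at hfin
  have hM' : ((2 * d * N * M : ℕ) : ℤ) ≠ 0 := by exact_mod_cast hM.ne'
  have hcard := mul_right_cancel₀ hM' hfin
  have e1 : (univ.filter fun t => z t = z t0) = univ.filter fun t => idx t = idx t0 := by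
    ext t
    simp only [mem_filter, mem_univ, true_and]
    rw [← hidx, ← hidx]
    exact ⟨fun h => hinj _ _ h, fun h => by rw [h]⟩
  have e2 : (univ.filter fun t => z t = (Q : ℂ) / z t0) = univ.filter fun t => idx t = (idx t0).conj := by
    ext t
    simp only [mem_filter, mem_univ, true_and]
    rw [← hidx, ← hidx, ← hconj]
    exact ⟨fun h => hinj _ _ h, fun h => by rw [h]⟩
  rw [e1, e2]
  exact_mod_cast hcard

end TAW
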